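import Pool.Agent.Y149.TL.Uni

/-!
# Tate's conjecture on the order of the pole: pairs decide for products of many varieties

`X` is a smooth projective variety over `ℚ` and `Y_e`, `e ∈ ι`, is an arbitrary family of smooth projective varieties over `ℚ` with
bounded Betti numbers for which the orders at the edge are known for ONE and for TWO members (`IsPairFamily`):
`L(H^c(Y_e), s)` has order `-τ_{e,c}` at `s = c/2 + 1`, and, with a symmetric exceptional relation in which every member is related to
at most `M` members, `L(H^c(Y_e) ⊗ H^c(Y_{e'}), s)` has order `-τ_{e,c} τ_{e',c}` at `s = c + 1` for the unrelated pairs. So this is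
the prediction of the conjecture if all algebraic classes come from the two factors. We study
`L(H^n(X × Y_{l_1} × ⋯ × Y_{l_k}), s)` at the edge `s = n/2 + 1` for all `k`-tuples `l`, with `k` and `n` arbitrary; for `n = 2m` this
is the point `s = m + 1` in the conjecture. The prediction `QQ r₀ τ l n` is the coefficient of `T^n` in
`(∑ r₀_c T^c) ∏_i (∑ τ_{l_i,c} T^c)`: the rank of the group of the products of algebraic classes of the factors, if `r₀_c` and
`τ_{e,c}` are the ranks for `X` and the `Y_e`. Nothing is assumed about the products of three or more varieties, or about `X`, except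
that the orders exist where we speak about them; in the mean square theorem (part 1) nothing at all.

The starting result `ManyFactors` is the case in which all `Y_e` are modular elliptic curves over `ℚ`. Here the members may be
arbitrary, for example varieties of different dimensions, surfaces, or varieties over number fields regarded as varieties over `ℚ`;
the hypothesis on pairs is a statement on Rankin-Selberg convolutions, while the conclusion is about tensor products of any number of
representations, for which no automorphy is known.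

The definitions are in `Pool.Agent.Y149.PK.Defs`. Proof: the unused theorems `gen_mean`, `gen_order` and `gen_universal` of the
starting library (orthogonality of the traces of Frobenius on pairs implies, by Cauchy-Schwarz, the vanishing of the mixed terms on
average over tuples).
-/

set_option autoImplicit false

namespace Pool.Agent.Results.MP_058a58_ag.GeneralFamilies

open Filter Topology Polynomial
open Pool.Agent.Y149.CM (LFun)
open Pool.Agent.Y149.PK

/-- **Products of many members of a general family.** Let `Y_e`, `e ∈ ι`, be varieties with Betti numbers at most `N` whose poles are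
known for one and for two members, and let `D = dimY X.betti N k n` be the coefficient of `T^n` in `(∑ b_c(X) T^c) (∑ N_c T^c)^k`
(an upper bound for the `n`-th Betti number of the products).
1. For every finite set `J` of indices, `η > 0` and all small `ε > 0` the sum over all `k`-tuples `l` of members of `J` of the squares
of `log |L(H^n(X × Y_l), n/2+1+ε)| / log(1/ε) - QQ(z, τ, l, n)`, where `z_c = log |L(H^c(X), c/2+1+ε)| / log(1/ε)`, is at most
`2 M (k D)² |J|^{k-1} + η`.
2. If the `L(H^c(X), s)`, `c ≤ n`, have poles of order `r₀(c)` at the edge, then the sum of the `(r(l) - QQ(r₀, τ, l, n))²` over all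
`k`-tuples `l` of members of `J` for which the order `-r(l)` of `L(H^n(X × Y_l), s)` at `s = n/2 + 1` exists is at most
`2 M (k D)² |J|^{k-1}`. In particular `r(l)` is different from the prediction for at most `2 M (k D)² |J|^{k-1}` of the `|J|^k` tuples.
3. Let `ι` be infinite and let `X_0, X_1, …` be a sequence of varieties, for example all smooth projective varieties over `ℚ`, for
which all these orders exist. There is ONE infinite subset `𝒥` of `ι` with finite subsets `F_0, F_1, …` such that for all `j`, `k`, `n`
and all `k`-tuples of different members of `𝒥` outside of `F_j` the order for `H^n(X_j × Y_l)` is the predicted one. -/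
theorem result (ι : Type) (Y : ι → Variety) (N : ℕ → ℕ) (M : ℕ) (τ : ι → ℕ → ℤ) (h : IsPairFamily Y N M τ) :
    (∀ (X : Variety) (B : List ι → ℕ → Nat.Primes → ℂ[X]), IsSystem X Y B →
      (∀ (k n : ℕ) (J : Finset ι) (η : ℝ), 0 < η → ∀ᶠ ε : ℝ in 𝓝[>] 0,
        (∀ c, c ≤ n → LFun (B [] c) ((c : ℂ) / 2 + 1 + ε) ≠ 0) ∧
        (∀ l ∈ tuples J k, LFun (B (List.ofFn l) n) ((n : ℂ) / 2 + 1 + ε) ≠ 0) ∧
        ∑ l ∈ tuples J k, (size n (B (List.ofFn l) n) ε -
            QQ (fun c => size c (B [] c) ε) (fun e c => (τ e c : ℝ)) (List.ofFn l) n) ^ 2 ≤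
          2 * M * (k * (dimY X.betti N k n : ℝ)) ^ 2 * (J.card : ℝ) ^ (k - 1) + η) ∧
      (∀ (k n : ℕ) (r₀ : ℕ → ℤ), (∀ c, c ≤ n → HasOrder c (B [] c) (-(r₀ c))) →
        ∀ (J : Finset ι) (S : Finset (Fin k → ι)) (r : (Fin k → ι) → ℤ),
        (∀ l ∈ S, (∀ i, l i ∈ J) ∧ HasOrder n (B (List.ofFn l) n) (-(r l))) →
        ∑ l ∈ S, (r l - QQ r₀ τ (List.ofFn l) n) ^ 2 ≤
          2 * M * (k * (dimY X.betti N k n : ℤ)) ^ 2 * (J.card : ℤ) ^ (k - 1))) ∧
    (Infinite ι → ∀ (X : ℕ → Variety) (B : ℕ → List ι → ℕ → Nat.Primes → ℂ[X]),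
      (∀ j, IsSystem (X j) Y (B j)) →
      ∀ r : ℕ → List ι → ℕ → ℤ, (∀ j l n, HasOrder n (B j l n) (-(r j l n))) →
      ∃ 𝒥 : Set ι, 𝒥.Infinite ∧ ∀ j, ∃ F : Finset ι, (∀ x ∈ F, x ∈ 𝒥) ∧
        ∀ (k : ℕ) (l : Fin k → ι), Function.Injective l → (∀ i, l i ∈ 𝒥 ∧ l i ∉ F) →
        ∀ n, r j (List.ofFn l) n = QQ (r j []) τ (List.ofFn l) n) := by
  classical
  choose B₁ h₁ hτ using h.single
  obtain ⟨R, hsymm, hM, hpair⟩ := h.pair
  have hpair' : ∀ (e e' : ι) (c : ℕ), ∃ B : Nat.Primes → ℂ[X], ¬ R e e' →
      (IsEuler (2 * c) (fun p => tens ((Y e).frob p c) ((Y e').frob p c)) B ∧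
        HasOrder (2 * c) B (-(τ e c * τ e' c))) := by
    intro e e' c
    by_cases hR : R e e'
    · exact ⟨fun _ => 0, fun hn => absurd hR hn⟩
    · obtain ⟨B, hB⟩ := hpair e e' hR c
      exact ⟨B, fun _ => hB⟩
  choose B₂ h₂ using hpair'
  refine ⟨fun X B hB => ⟨fun k n J η hη => ?_, fun k n r₀ hr₀ J S r hS => ?_⟩, fun hι X B hB r hr => ?_⟩
  · have g1 := bases_ne X (B := fun c => B [] c) (fun c => hB [] c) n
    have g2 := gen_mean h.betti_le hsymm hM h₁ hτ (B₂ := B₂) (fun e e' c hR => (h₂ e e' c hR).1)
      (fun e e' c hR => (h₂ e e' c hR).2) X (B₀ := fun c => B [] c) (fun c => hB [] c) (k := k) (n := n)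
      (B := fun l => B (List.ofFn l) n) (fun l => hB (List.ofFn l) n) J hη
    filter_upwards [g1, g2] with ε a1 a2
    exact ⟨a1, a2.1, a2.2⟩
  · exact gen_order h.betti_le hsymm hM h₁ hτ (B₂ := B₂) (fun e e' c hR => (h₂ e e' c hR).1)
      (fun e e' c hR => (h₂ e e' c hR).2) X (B₀ := fun c => B [] c) (fun c => hB [] c)
      (B := fun l => B (List.ofFn l) n) (fun l => hB (List.ofFn l) n) hr₀ J S r hS
  · exact Pool.Agent.Y149.TL.gen_universal h X hB hr

end Pool.Agent.Results.MP_058a58_ag.GeneralFamilies
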