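import Pool.Agent.Q193.LT.Pole

/-!
# Tate's conjecture on poles and the cubic hypersurfaces `T(x, y, z) = 1`

For a separated scheme `X` of finite type over `ℚ` and an integer `m` let

* `L_m(X, s) = ∏_i L(Gr^W_{2m} H^{2m+i}_c(X), s)^{(-1)^i}`, the alternating product of the `L`-functions
  (the Euler products, which converge for `Re s > m + 1`) of the parts of weight `2m` of the cohomology
  with compact supports; `D.L m X t` is the value at `s = m + 1 + t`, for real `t > 0`;
* `D.χ m X = ∑_i (-1)^i rank H^i(B^m(W(X)))`, where `W(X)` is the weight complex of `X` (Gillet, Soulé)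
  and `B^m` the group of cycles of codimension `m` modulo homological equivalence.

For a smooth projective variety `Y` over `ℚ` these are `L(H^{2m}(Y), s)` and the rank of `B^m(Y)`, because
`H^{2m+i}(Y)` has the weight `2m + i`, and `W(Y) = h(Y)`. `PoleFormula D X` says that for all `m` the
function `L_m(X, s)` has a pole of order `D.χ m X` at `s = m + 1` (in the sense of the problem); for
smooth projective `Y` this is Tate's conjecture of question Q1 for `Y`, all `m`.

**Theorem.** (1) Tate's conjecture of question Q1 is true for all smooth projective varieties over `ℚ` if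
and only if the formula is true for the smooth affine cubic hypersurfaces
`X_H : ∑_{(i, j, l) ∈ H} x_i y_j z_l = 1` of all finite sets `H` of triples.

(2) For all `n`, it is true for all smooth projective varieties of dimension at most `n` over `ℚ` if and
only if the formula is true for the hypersurfaces `T(x, y, z) = 1` of all trilinear forms `T` over `ℚ`
such that one of the three blocks of variables has at most `n + 2` variables (the other two blocks are
arbitrary).

(3) Unconditionally, the formula is true for the hypersurfaces `T(x, y, z) = 1` such that one of the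
three blocks of variables has at most three variables.
-/

set_option autoImplicit false

open CategoryTheory CategoryTheory.Limits AlgebraicGeometry Pool.Agent.Y116.UV Pool.Agent.Z125.UN
  Pool.Agent.Q193.LT

namespace Pool.Agent.Results.MP_058a58_ag.HypergraphPoles

/-- The formula for all smooth projective schemes of dimension at most `n`. -/
def Proj (D : PoleData ℚ) (n : ℕ) : Prop :=
  ∀ Y : Sch ℚ, SmoothProj Y → topologicalKrullDim Y.left ≤ n → PoleFormula D Y

/-- The formula for all hypersurfaces `T = 1` with a block of at most `m` variables. -/
def Forms (D : PoleData ℚ) (m : ℕ) : Prop :=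
  ∀ (a b c : ℕ) (T : Fin a → Fin b → Fin c → ℚ), (a ≤ m ∨ b ≤ m ∨ c ≤ m) →
    PoleFormula D (hypS T)

/-- **Poles and cubic hypersurfaces.** See the explanations above. `hk` is Hironaka's theorem. The known
cases that are used are points and curves (Dedekind zeta functions). -/
theorem result {D : PoleData ℚ} (hD : IsPole D) (hk : Hironaka ℚ)
    (point : PoleFormula D (aff ℚ ℚ)) (curves : Proj D 1) :
    ((∀ Y : Sch ℚ, SmoothProj Y → PoleFormula D Y) ↔
      ∀ (a b c : ℕ) (H : Finset (Fin a × Fin b × Fin c)), PoleFormula D (tripS ℚ H)) ∧
    (∀ n : ℕ, Proj D n ↔ Forms D (n + 2)) ∧ Forms D 3 :=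
  ⟨sp_graph_iff hk (bnd_pole hD point) frac_rat, fun n => sp_iff hk (bnd_pole hD point) n,
    (sp_iff hk (bnd_pole hD point) 1).mp curves⟩

end Pool.Agent.Results.MP_058a58_ag.HypergraphPoles
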