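import Pool.Agent.Q11.PL.Main

/-!
# The defects of Tate's pole conjecture as a class function, bounded by the poles of `L(T ⊗ T ⊗ χ, s)`

`X` is a smooth projective variety over a number field `K` (the question: `K = ℚ`) and `V` the space of
the classes of the algebraic cycles of codimension `m` defined over the algebraic closure, with the
action of the Galois group; `T` is the complement of `V(-m)` in `H^{2m}(X)`, of dimension `s`.  Let `M` be a
finite Galois extension of `K` and `χ_k` all the irreducible representations of `Gal(M/K)`.  The defect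
`δ_k` is the difference between `dim (V ⊗ χ_k)^{Gal(K̄/K)}` and the order of the pole of
`L(H^{2m}(X) ⊗ χ_k, s)` at `s = m + 1`; Tate's conjecture for `X` over all fields between `K` and `M` says
`δ_k = 0` for all `k`.  The order `p_k` of the pole of `L(T ⊗ T ⊗ χ_k, s)` at the edge should be such that
`∑ p_k χ_k` is the character of `Gal(M/K)` on the endomorphisms of `T` that are defined over `M`.
The definitions are in `Pool.Agent.Q11.PL.Defs`, `Pool.Agent.Y139.SM.Defs`, `Pool.Agent.W353.AT.TDefs`,
`Pool.Agent.W353.AT.Defs`, `Pool.Agent.W353.TD.Defs`, `Pool.Agent.W353.EH.Defs` and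
`Pool.Agent.W353.EF.Defs`.
-/

set_option autoImplicit false

namespace Pool.Agent.Results.MP_058a58_ag.PointwiseLaw

open NumberField

/-- **The pointwise law for the defects of Tate's pole conjecture.**  Let `X` be a projective variety of
dimension `d` over a number field `K`, `0 ≤ m ≤ d`, `N` the `2m`-th Betti number, `V` a part of
`H^{2m}(X)(m)`, for instance `V = A^m(X) ⊗ ℚ`, `T` the complement of `V(-m)` and `s = N - dim V`.  Let
`χ_k` be all the irreducible representations of `Gal(M/K)`, `M/K` any finite Galois extension.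
* (No continuation is assumed.)  For every `g` in the Galois group, `η > 0` and all small `ε > 0`
  `|∑ x_k(ε) χ_k(g)|² ≤ Re ∑ S_k(ε) χ_k(g) + η ≤ s² + 2 η`, where
  `x_k(ε) = log |L(H^{2m}(X) ⊗ χ_k, m + 1 + ε)| / log(1/ε) - dim (V ⊗ χ_k)^{Gal(K̄/K)}` and
  `S_k(ε) = log |L(T ⊗ T ⊗ χ_k, 2m + 1 + ε)| / log(1/ε)`.
* If the `χ_k` have the integral defects `δ_k` and the `L(T ⊗ T ⊗ χ_k, s)` have poles of the orders
  `p_k` at the edge, then `|∑ δ_k χ_k(g)|² ≤ Re ∑ p_k χ_k(g) ≤ s²` for all `g`.
* If moreover `p_k = c dim χ_k` for all `k` and `c < [M : K]`, then `δ_k = 0` for all `k`, and Tate's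
  conjecture on the pole holds for `X` over all fields `F` between `K` and `M`:
  `log |L(H^{2m}(X_F), m + 1 + ε)| / log(1/ε)` tends to `dim V^{Gal(K̄/F)}`. -/
theorem result (K : Type) [Field K] [NumberField K] (n d m N : ℕ)
    (X : Set (MvPolynomial (Fin n) (𝓞 K))) (V : Type) [AddCommGroup V] [Module ℚ V]
    [FiniteDimensional ℚ V] (ρ : Representation ℚ Gal(AlgebraicClosure K/K) V) (hm : m ≤ d)
    (hV : Pool.Agent.W353.TD.IsPart X d m N ρ) : Pool.Agent.Q11.PL.PointwiseLaw X d m N ρ :=
  Pool.Agent.Q11.PL.pointwiseLaw hm hV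

end Pool.Agent.Results.MP_058a58_ag.PointwiseLaw
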