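import Mathlib
import Pool.Agent.Q12.VB.Var

/-! The order of the pole at `s = m + 1` and the means of the boundary values on the line `Re s = m + 1`. -/

set_option autoImplicit false

open Filter Topology MeasureTheory
open Pool.Agent.Q12.VB

namespace Pool.Agent.Results.MP_058a58_ag.PoleFromEdgeMeans

/-- the point `i/2 + 1 + iτ` of the edge for the `L`-function of `H^i(X)`; for `i = 2m` and `τ = 0` it is `m + 1` -/
noncomputable def edge (D : VDatum) (τ : ℝ) : ℂ := ept ((D.i : ℝ) / 2) τ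

/-- the angle `|s - edge τ| ≤ C (Re s - (i/2 + 1))` in the half-plane `Re s > i/2 + 1` -/
def angle (D : VDatum) (τ C : ℝ) : Set ℂ := ang ((D.i : ℝ) / 2) τ C

variable {ι : Type} [Fintype ι]

/-- the mean of `∏_j |l_j|^{c_j}` over the interval of length `h` with the centre `τ` -/
noncomputable def mean (l : ι → ℝ → ℂ) (c : ι → ℝ) (τ h : ℝ) : ℝ :=
  (∫ u in (τ - h / 2)..(τ + h / 2), ∏ j, ‖l j u‖ ^ c j) / h

/-- `log ∏_j |L_j|^{c_j}` at the distance `h` from the edge -/
noncomputable def logInside (D : ι → VDatum) (c : ι → ℝ) (τ h : ℝ) : ℝ :=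
  ∑ j, c j * Real.log ‖(D j).LFun (edge (D j) τ + h)‖

/-- **The order of the pole and the means of the boundary values.** Let `L_j = L_{S_j}(H^{i_j}(X_j) ⊗ c_j, s)` be
finitely many `L`-functions of varieties over number fields, with twists, for example one variety over `ℚ`, `i = 2m` and
no twist, and `M_j = [K_j : ℚ] dim H^{i_j}(X_j)`. No continuation is assumed. There are functions `l_j` on the real line
with the following properties.

1. For all `τ` outside a set of Hausdorff dimension `0`: `l_j(τ) ≠ 0` and `L_j(s) → l_j(τ)` as `s → i_j/2 + 1 + iτ` in any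
  angle.
2. For all real `c_j` with `∑ |c_j| M_j < 1`, all `τ` and all real `r`: the mean of `∏ |l_j|^{c_j}` over the interval of
  length `h` with the centre `τ` is, up to the factor `A = 1000 / (1 - ∑ |c_j| M_j)`, equal to
  `∏ |L_j(i_j/2 + 1 + h + iτ)|^{c_j}` for all `0 < h ≤ 1/2`.
3. `∏ |L_j|^{c_j}` has the order `r` at the point, that is `log ∏ |L_j(i_j/2 + 1 + h + iτ)|^{c_j} / log h → r`, if and only
  if the logarithm of the mean, divided by `log h`, tends to `r`.
4. If `(s - s_τ)^{-k} L_j(s)` has a finite limit different from zero as `s → s_τ` along the horizontal line (for `i = 2m`,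
  `τ = 0` this is `ord_{s = m+1} L = k`, and Tate's conjecture is `k = - rank B^m(X)`), then
  `log (mean of |l_j|^c) / log h → c k` for all `|c| M_j < 1`. -/
theorem result (D : ι → VDatum) :
    ∃ l : ι → ℝ → ℂ,
      (∃ N : Set ℝ, dimH N = 0 ∧ ∀ τ : ℝ, τ ∉ N → ∀ j, l j τ ≠ 0 ∧ ∀ C : ℝ,
        Tendsto (D j).LFun (𝓝[angle (D j) τ C] (edge (D j) τ)) (𝓝 (l j τ))) ∧
      (∀ c : ι → ℝ, ∑ j, |c j| * (D j).deg < 1 → ∀ τ : ℝ,
        (∀ h : ℝ, 0 < h → h ≤ 1 / 2 →
          IntegrableOn (fun u => ∏ j, ‖l j u‖ ^ c j) (Set.Icc (τ - h / 2) (τ + h / 2)) ∧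
          (1000 / (1 - ∑ j, |c j| * (D j).deg))⁻¹ * Real.exp (logInside D c τ h) ≤ mean l c τ h ∧
          mean l c τ h ≤ 1000 / (1 - ∑ j, |c j| * (D j).deg) * Real.exp (logInside D c τ h)) ∧
        ∀ r : ℝ, (Tendsto (fun h => logInside D c τ h / Real.log h) (𝓝[>] 0) (𝓝 r) ↔
          Tendsto (fun h => Real.log (mean l c τ h) / Real.log h) (𝓝[>] 0) (𝓝 r))) ∧
      ∀ (j : ι) (τ : ℝ) (k : ℤ) (A : ℂ), A ≠ 0 →
        Tendsto (fun h : ℝ => (h : ℂ) ^ (-k) * (D j).LFun (edge (D j) τ + h)) (𝓝[>] 0) (𝓝 A) →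
        ∀ c : ℝ, |c| * (D j).deg < 1 →
          Tendsto (fun h : ℝ => Real.log ((∫ u in (τ - h / 2)..(τ + h / 2), ‖l j u‖ ^ c) / h) / Real.log h) (𝓝[>] 0)
            (𝓝 (c * k)) := by
  have hF := var_fam D
  have hpos : ∀ j (τ h : ℝ), 0 < h → 0 < ‖(D j).LFun (edge (D j) τ + h)‖ := by
    intro j τ h hh
    have h1 := hF.pt j τ hh
    have h2 : (D j).LFun (edge (D j) τ + h) = Complex.exp _ := h1
    rw [h2]
    exact norm_pos_iff.2 (Complex.exp_ne_zero _)
  have hexp : ∀ (c : ι → ℝ) (τ h : ℝ), 0 < h → Real.exp (logInside D c τ h) =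
      ∏ j, ‖(D j).LFun (edge (D j) τ + h)‖ ^ c j := by
    intro c τ h hh
    unfold logInside
    rw [Real.exp_sum]
    refine Finset.prod_congr rfl fun j _ => ?_
    rw [Real.rpow_def_of_pos (hpos j τ h hh), mul_comm]
  refine ⟨fun j => lb (Pool.Agent.TH339.MP.bb (D j).be), ⟨_, hF.exc_dim, fun τ hτ j => ⟨lb_ne _ _, fun C => ?_⟩⟩,
    fun c hc τ => ⟨fun h hh hh2 => ?_, fun r => ?_⟩, ?_⟩
  · exact hF.angle (fun h => hτ (Set.mem_iUnion.2 ⟨j, h⟩)) C
  · obtain ⟨i1, i2, i3⟩ := hF.harnack Finset.univ c hc hh hh2 τ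
    refine ⟨i1, ?_, ?_⟩
    · rw [hexp c τ h hh]
      unfold mean
      rw [le_div_iff₀ hh, inv_div]
      refine le_trans (le_of_eq ?_) i2
      unfold edge
      ring
    · rw [hexp c τ h hh]
      unfold mean
      rw [div_le_iff₀ hh]
      refine i3.trans (le_of_eq ?_)
      unfold edge
      ring
  · exact hF.order Finset.univ c hc τ r
  · intro j τ k A hA hlim c hc
    have h1 := (hF.order {j} (fun _ => c) (by simpa using hc) τ (c * k)).1 (by
      simp only [Finset.sum_singleton]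
      have h2 : Tendsto (fun h : ℝ => Real.log ‖(h : ℂ) ^ (-k) * (D j).LFun (edge (D j) τ + h)‖) (𝓝[>] 0)
          (𝓝 (Real.log ‖A‖)) := (hlim.norm).log (norm_ne_zero_iff.2 hA)
      have h3 : Tendsto (fun h : ℝ => Real.log ‖(h : ℂ) ^ (-k) * (D j).LFun (edge (D j) τ + h)‖ / Real.log h) (𝓝[>] 0)
          (𝓝 0) := h2.div_atBot Real.tendsto_log_nhdsGT_zero
      have h4 := (h3.add_const (k : ℝ)).const_mul c
      rw [zero_add] at h4
      refine h4.congr' ?_
      have h5 : ∀ᶠ h : ℝ in 𝓝[>] 0, h ≤ 1 / 2 :=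
        (eventually_le_nhds (by norm_num : (0 : ℝ) < 1 / 2)).filter_mono nhdsWithin_le_nhds
      filter_upwards [self_mem_nhdsWithin, h5] with h hh hh2
      have hh0 : 0 < h := hh
      have hl : Real.log h ≠ 0 := (Real.log_neg hh0 (by linarith)).ne
      have hL := hpos j τ h hh0
      rw [norm_mul, norm_zpow, Complex.norm_real, Real.norm_of_nonneg hh0.le,
        Real.log_mul (zpow_pos hh0 _).ne' hL.ne', Real.log_zpow]
      show c * ((((-k : ℤ) : ℝ) * Real.log h + Real.log ‖(D j).LFun (edge (D j) τ + h)‖) / Real.log h + (k : ℝ)) =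
        c * Real.log ‖(D j).LFun (edge (D j) τ + h)‖ / Real.log h
      push_cast
      field_simp
      ring)
    simp only [Finset.prod_singleton] at h1
    exact h1

end Pool.Agent.Results.MP_058a58_ag.PoleFromEdgeMeans
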